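import Pool.Agent.H8.BIG.Targets
import Pool.Agent.H18.HIT.Basic

/-!
# Row KSP of big_modules: specialization of the condition on the images of hypersurfaces
-/

set_option autoImplicit false

open MvPolynomial
open Pool.Agent.H12.ZD (pmap v O Res DenseOrbit NoInv)
open Pool.Agent.H18.HIT Pool.Agent.H8.BIG

namespace Pool.Agent.H49.BIG

section

variable {N : ℕ}

/-- the monomials of degree at most `d` -/
noncomputable def Bd (N d : ℕ) : Finset (Fin N →₀ ℕ) :=
  (Finsupp.finite_of_degree_le (σ := Fin N) d).toFinset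

theorem mem_Bd {d : ℕ} {m : Fin N →₀ ℕ} : m ∈ Bd N d ↔ (m.sum fun _ e => e) ≤ d := by
  unfold Bd
  rw [Set.Finite.mem_toFinset]
  rfl

theorem zero_mem_Bd (d : ℕ) : (0 : Fin N →₀ ℕ) ∈ Bd N d := by
  rw [mem_Bd, Finsupp.sum_zero_index]
  exact Nat.zero_le d

theorem sum_mon {B : Type} [CommRing B] {d : ℕ} (Q : Po N B) (h : Q.totalDegree ≤ d) :
    ∑ β : Bd N d, monomial (β : Fin N →₀ ℕ) (coeff (β : Fin N →₀ ℕ) Q) = Q := by
  classical
  rw [Finset.sum_coe_sort (Bd N d) (fun β => monomial β (coeff β Q))]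
  conv_rhs => rw [← Q.support_sum_monomial_coeff]
  symm
  refine Finset.sum_subset ?_ ?_
  · intro m hm
    rw [mem_Bd]
    exact (le_totalDegree hm).trans h
  · intro m _ hm
    rw [notMem_support_iff.1 hm, monomial_zero]

theorem coeff_sum_mon {B : Type} [CommRing B] {d : ℕ} (g : Bd N d → B) (β : Bd N d) :
    coeff (β : Fin N →₀ ℕ) (∑ β : Bd N d, monomial (β : Fin N →₀ ℕ) (g β)) = g β := by
  classical
  rw [coeff_sum, Finset.sum_eq_single β]
  · rw [coeff_monomial, if_pos rfl]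
  · intro β' _ h
    rw [coeff_monomial, if_neg]
    exact fun h1 => h (Subtype.ext h1)
  · exact fun h => absurd (Finset.mem_univ β) h

theorem deg_sum_mon {B : Type} [CommRing B] {d : ℕ} (g : Bd N d → B) :
    (∑ β : Bd N d, monomial (β : Fin N →₀ ℕ) (g β)).totalDegree ≤ d := by
  refine (totalDegree_finsetSum _ _).trans (Finset.sup_le fun β _ => ?_)
  refine (totalDegree_monomial_le _ _).trans ?_
  exact mem_Bd.1 β.2

/-- the linear system -/
noncomputable def w {B : Type} [CommRing B] {μ ν : ℕ} (T : Tup N B) (S : Po N B)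
    (γ : Fin N →₀ ℕ) : Bd N μ ⊕ Bd N ν → B
  | Sum.inl β => coeff γ (∏ i, T i ^ (β : Fin N →₀ ℕ) i)
  | Sum.inr β => - coeff γ (S * monomial (β : Fin N →₀ ℕ) 1)

theorem w_map {B B' : Type} [CommRing B] [CommRing B'] {μ ν : ℕ} (h : B →+* B') (T : Tup N B)
    (S : Po N B) (γ : Fin N →₀ ℕ) (j : Bd N μ ⊕ Bd N ν) :
    h (w T S γ j) = w (mp h T) (map h S) γ j := by
  rcases j with β | β
  · change h (coeff γ (∏ i, T i ^ (β : Fin N →₀ ℕ) i)) = coeff γ (∏ i, (map h (T i)) ^ _)
    rw [← coeff_map, map_prod]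
    simp only [map_pow]
  · change h (- coeff γ (S * monomial (β : Fin N →₀ ℕ) 1)) = - coeff γ _
    rw [map_neg, ← coeff_map, map_mul, map_monomial, map_one]

theorem sum_w {F : Type} [Field F] {μ ν : ℕ} (T : Tup N F) (S : Po N F)
    (g : Bd N μ ⊕ Bd N ν → F) (γ : Fin N →₀ ℕ) :
    ∑ j, g j * w T S γ j =
      coeff γ (aeval T (∑ β : Bd N μ, monomial (β : Fin N →₀ ℕ) (g (Sum.inl β))) -
        S * ∑ β : Bd N ν, monomial (β : Fin N →₀ ℕ) (g (Sum.inr β))) := by
  rw [Fintype.sum_sum_type, coeff_sub, sub_eq_add_neg]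
  congr 1
  · rw [map_sum, coeff_sum]
    refine Finset.sum_congr rfl fun β _ => ?_
    rw [aeval_monomial, Finsupp.prod_fintype _ _ (fun _ => pow_zero _), algebraMap_eq,
      coeff_C_mul]
    rfl
  · rw [Finset.mul_sum, coeff_sum, ← Finset.sum_neg_distrib]
    refine Finset.sum_congr rfl fun β _ => ?_
    have h1 : (monomial (β : Fin N →₀ ℕ) (g (Sum.inr β)) : Po N F) =
        C (g (Sum.inr β)) * monomial (β : Fin N →₀ ℕ) 1 := by
      rw [C_mul_monomial, mul_one]
    rw [h1, mul_left_comm, coeff_C_mul]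
    change g (Sum.inr β) * (- coeff γ _) = _
    rw [mul_neg]

/-- from the hypersurface to the linear system -/
theorem to_g {F : Type} [Field F] {μ D : ℕ} (T : Tup N F) (hT : ∀ i, (T i).totalDegree ≤ D)
    (S : Po N F) (hS : S ≠ 0)
    (h : ∃ Q : Po N F, Q ≠ 0 ∧ Q.totalDegree ≤ μ ∧ S ∣ aeval T Q) :
    ∃ g : Bd N μ ⊕ Bd N (μ * D) → F, g ≠ 0 ∧ ∀ γ, ∑ j, g j * w T S γ j = 0 := by
  obtain ⟨Q, hQ0, hQ, W, hW⟩ := h
  have hWd : W.totalDegree ≤ μ * D := by
    by_cases hW0 : W = 0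
    · rw [hW0, totalDegree_zero]
      exact Nat.zero_le _
    · have h1 := totalDegree_aeval_le T D hT Q
      rw [hW, totalDegree_mul_of_isDomain hS hW0] at h1
      have h2 := Nat.mul_le_mul_right D hQ
      omega
  refine ⟨Sum.elim (fun β : Bd N μ => coeff (β : Fin N →₀ ℕ) Q)
    (fun β : Bd N (μ * D) => coeff (β : Fin N →₀ ℕ) W), ?_, fun γ => ?_⟩
  · intro h0
    apply hQ0
    rw [← sum_mon Q hQ]
    refine Finset.sum_eq_zero fun β _ => ?_
    have h1 := congrFun h0 (Sum.inl β)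
    change coeff (β : Fin N →₀ ℕ) Q = 0 at h1
    rw [h1, monomial_zero]
  · rw [sum_w]
    simp only [Sum.elim_inl, Sum.elim_inr]
    rw [sum_mon Q hQ, sum_mon W hWd, hW, sub_self, coeff_zero]

/-- from the linear system to the hypersurface -/
theorem of_g {F : Type} [Field F] {μ ν : ℕ} (T : Tup N F) (S : Po N F) (hS : S ≠ 0)
    (h : ∃ g : Bd N μ ⊕ Bd N ν → F, g ≠ 0 ∧ ∀ γ, ∑ j, g j * w T S γ j = 0) :
    ∃ Q : Po N F, Q ≠ 0 ∧ Q.totalDegree ≤ μ ∧ S ∣ aeval T Q := by
  obtain ⟨g, hg, hg0⟩ := h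
  set Q : Po N F := ∑ β : Bd N μ, monomial (β : Fin N →₀ ℕ) (g (Sum.inl β)) with hQ
  set W : Po N F := ∑ β : Bd N ν, monomial (β : Fin N →₀ ℕ) (g (Sum.inr β)) with hW
  have h1 : aeval T Q = S * W := by
    rw [← sub_eq_zero]
    refine MvPolynomial.ext _ _ fun γ => ?_
    rw [coeff_zero, ← hg0 γ, sum_w]
  refine ⟨Q, ?_, deg_sum_mon _, W, h1⟩
  intro h0
  rw [h0, map_zero] at h1
  have h2 : W = 0 := by
    rcases mul_eq_zero.1 h1.symm with h3 | h3
    · exact absurd h3 hS
    · exact h3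
  apply hg
  funext j
  rcases j with β | β
  · have h3 := coeff_sum_mon (fun β => g (Sum.inl β)) β
    rw [← hQ, h0, coeff_zero] at h3
    exact h3.symm
  · have h3 := coeff_sum_mon (fun β => g (Sum.inr β)) β
    rw [← hW, h2, coeff_zero] at h3
    exact h3.symm

/-- the kernel lemma for finite index types -/
theorem ker_fin (hKER : T_KER) {K : Type} [Field K] {ι J : Type} [Fintype J] [DecidableEq J]
    [Nonempty J] (w : ι → J → K)
    (h : ∀ s : J → ι, Matrix.det (Matrix.of fun i j => w (s i) j) = 0) :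
    ∃ g : J → K, g ≠ 0 ∧ ∀ i, ∑ j, g j * w i j = 0 := by
  set e := Fintype.equivFin J
  obtain ⟨g, hg, hg0⟩ := hKER K ι (Fintype.card J) (fun i a => w i (e.symm a)) (by
    intro s
    have h1 := h (fun j => s (e j))
    rw [← Matrix.det_submatrix_equiv_self e.symm] at h1
    rw [← h1]
    congr 1
    ext a b
    simp [Matrix.submatrix_apply]) Fintype.card_pos
  refine ⟨fun j => g (e j), ?_, fun i => ?_⟩
  · intro h1
    apply hg
    funext a
    have h2 := congrFun h1 (e.symm a)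
    simpa using h2
  · rw [← hg0 i]
    refine Fintype.sum_equiv e _ _ fun j => ?_
    simp

theorem det_zero {K : Type} [Field K] {ι J : Type} [Fintype J] [DecidableEq J]
    (w : ι → J → K) (h : ∃ g : J → K, g ≠ 0 ∧ ∀ i, ∑ j, g j * w i j = 0) (s : J → ι) :
    Matrix.det (Matrix.of fun i j => w (s i) j) = 0 := by
  obtain ⟨g, hg, hg0⟩ := h
  rw [← Matrix.exists_mulVec_eq_zero_iff]
  refine ⟨g, hg, ?_⟩
  funext i
  rw [Pi.zero_apply, ← hg0 (s i)]
  refine Finset.sum_congr rfl fun j _ => ?_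
  change w (s i) j * g j = _
  rw [mul_comm]

end

theorem pf_KSP (hKER : T_KER) : T_KSP := by
  classical
  intro N A _ k k' _ _ _ φ ψ T Λ μ hφ hyp S' hS' hsup'
  set D := deg T with hD
  -- the universal polynomial with support in `Λ`
  set SX : Po N (MvPolynomial Λ A) := ∑ α : Λ, monomial (α : Fin N →₀ ℕ) (X α) with hSX
  set TX : Tup N (MvPolynomial Λ A) := mp C T with hTX
  have hTdeg : ∀ {F : Type} [Field F] (χ : A →+* F) (i : Fin N),
      (mp χ T i).totalDegree ≤ D := by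
    intro F _ χ i
    refine le_trans ?_ (totalDegree_le_deg T i)
    exact Finset.sup_mono (support_map_subset _ _)
  have hTev : ∀ {F : Type} [Field F] (χ : A →+* F) (s : Λ → F),
      mp (eval₂Hom χ s) TX = mp χ T := by
    intro F _ χ s
    funext i
    change map (eval₂Hom χ s) (map C (T i)) = map χ (T i)
    have h1 : (eval₂Hom χ s).comp C = χ := by
      ext a
      simp
    rw [map_map, h1]
  have hSev : ∀ {F : Type} [Field F] (χ : A →+* F) (s : Λ → F),
      map (eval₂Hom χ s) SX = ∑ α : Λ, monomial (α : Fin N →₀ ℕ) (s α) := by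
    intro F _ χ s
    rw [hSX, map_sum]
    refine Finset.sum_congr rfl fun α _ => ?_
    rw [map_monomial, coe_eval₂Hom, eval₂_X]
  have hcoe : ∀ {F : Type} [Field F] (s : Λ → F) (α : Λ),
      coeff (α : Fin N →₀ ℕ) (∑ α : Λ, monomial (α : Fin N →₀ ℕ) (s α) : Po N F) = s α := by
    intro F _ s α
    rw [coeff_sum, Finset.sum_eq_single α]
    · rw [coeff_monomial, if_pos rfl]
    · intro β' _ h
      rw [coeff_monomial, if_neg]
      exact fun h1 => h (Subtype.ext h1)
    · exact fun h => absurd (Finset.mem_univ α) h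
  have hsupp : ∀ {F : Type} [Field F] (s : Λ → F),
      (∑ α : Λ, monomial (α : Fin N →₀ ℕ) (s α) : Po N F).support ⊆ Λ := by
    intro F _ s m hm
    by_contra hmΛ
    apply mem_support_iff.1 hm
    rw [coeff_sum]
    refine Finset.sum_eq_zero fun α _ => ?_
    rw [coeff_monomial, if_neg]
    intro h1
    exact hmΛ (h1 ▸ α.2)
  have hdet : ∀ σ : Bd N μ ⊕ Bd N (μ * D) → (Fin N →₀ ℕ),
      Matrix.det (Matrix.of fun i j => w TX SX (σ i) j) = 0 := by
    intro σ
    set P := Matrix.det (Matrix.of fun i j => w TX SX (σ i) j) with hP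
    have hPev : ∀ {F : Type} [Field F] (χ : A →+* F) (s : Λ → F), eval₂Hom χ s P =
        Matrix.det (Matrix.of fun i j => w (mp χ T)
          (∑ α : Λ, monomial (α : Fin N →₀ ℕ) (s α)) (σ i) j) := by
      intro F _ χ s
      rw [hP, RingHom.map_det]
      congr 1
      ext i j
      rw [RingHom.mapMatrix_apply, Matrix.map_apply, Matrix.of_apply, Matrix.of_apply, w_map,
        hTev, hSev]
    obtain ⟨m, hm⟩ := support_nonempty.2 hS'
    set α : Λ := ⟨m, hsup' hm⟩
    have h1 : map φ P * X α = 0 := by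
      refine MvPolynomial.funext fun s => ?_
      rw [map_mul, eval_X, map_zero]
      by_cases hs : s α = 0
      · rw [hs, mul_zero]
      · have hS0 : (∑ α : Λ, monomial (α : Fin N →₀ ℕ) (s α) : Po N k) ≠ 0 := by
          intro h0
          apply hs
          rw [← hcoe s α, h0, coeff_zero]
        have h2 := to_g (mp φ T) (hTdeg φ) _ hS0 (hyp _ hS0 (hsupp s))
        have h3 := det_zero _ h2 σ
        rw [← hPev] at h3
        rw [eval_map]
        change eval₂Hom φ s P * s α = 0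
        rw [h3, zero_mul]
    have h2 : map φ P = 0 := (mul_eq_zero.1 h1).resolve_right (X_ne_zero α)
    exact map_injective φ hφ (h2.trans (map_zero _).symm)
  -- over `k'`
  set s' : Λ → k' := fun α => coeff (α : Fin N →₀ ℕ) S' with hs'
  have hS'eq : (∑ α : Λ, monomial (α : Fin N →₀ ℕ) (s' α) : Po N k') = S' := by
    rw [hs', Finset.sum_coe_sort Λ (fun β => monomial β (coeff β S'))]
    conv_rhs => rw [← S'.support_sum_monomial_coeff]
    symm
    refine Finset.sum_subset hsup' fun m _ hm => ?_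
    rw [notMem_support_iff.1 hm, monomial_zero]
  haveI : Nonempty (Bd N μ ⊕ Bd N (μ * D)) := ⟨Sum.inl ⟨0, zero_mem_Bd μ⟩⟩
  refine of_g (ν := μ * D) (mp ψ T) S' hS' (ker_fin hKER _ fun σ => ?_)
  have h1 := congrArg (eval₂Hom ψ s') (hdet σ)
  rw [RingHom.map_det, map_zero] at h1
  rw [← h1]
  congr 1
  ext i j
  rw [RingHom.mapMatrix_apply, Matrix.map_apply, Matrix.of_apply, Matrix.of_apply, w_map,
    hTev, hSev, hS'eq]

end Pool.Agent.H49.BIG
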